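import Pool.Agent.Helper34.FF.Goals4
import Pool.Agent.Helper75.FF.StmtTri

/-!
# Three compatible vertices are on two common cuts
-/

namespace Pool.Agent.Helper10.FF

open Finset
open scoped symmDiff Classical
open Pool.Agent.Helper34.FF

/-- Abstract counting: a set covered by three light sets and three boundaries. -/
theorem card_cover {V : Type} {L W : Finset V} (M B : Fin 3 → Finset V) (lam l : ℕ)
    (hM : ∀ i, (M i).card ≤ lam) (hB : ∀ i, (B i).card ≤ l)
    (h : ∀ v ∈ L ∩ W, ∃ i, v ∈ M i ∨ v ∈ B i) : (L ∩ W).card ≤ 3 * lam + 3 * l := by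
  have hsub : L ∩ W ⊆ ((M 0 ∪ M 1) ∪ M 2) ∪ ((B 0 ∪ B 1) ∪ B 2) := by
    intro v hv
    obtain ⟨i, hi⟩ := h v hv
    fin_cases i <;> rcases hi with hi | hi <;> simp_all
  have h1 := card_le_card hsub
  have h2 := card_union_le ((M 0 ∪ M 1) ∪ M 2) ((B 0 ∪ B 1) ∪ B 2)
  have h3 := card_union_le (M 0 ∪ M 1) (M 2)
  have h4 := card_union_le (M 0) (M 1)
  have h5 := card_union_le (B 0 ∪ B 1) (B 2)
  have h6 := card_union_le (B 0) (B 1)
  have := hM 0
  have := hM 1
  have := hM 2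
  have := hB 0
  have := hB 1
  have := hB 2
  omega

theorem pf_StmtTriple (hLat : StmtLat) (hMass : StmtMass) : StmtTriple := by
  have hTri : StmtTri := Pool.Agent.Helper75.FF.pf_StmtTri
  intro V F _ _ T hT L e l lam Xa T₁ hA u D S huL hne hD hS hC
  obtain ⟨tri, tri2, tri3, -, -⟩ := hTri V F T hT
  obtain ⟨hbd, -⟩ := hMass V F T hT
  have lat := hLat V F T hT L e l lam Xa T₁ hA
  -- intersections
  have hI : ∀ i j k : Fin 3, i ≠ j → i ≠ k → j ≠ k →
      T.len ((S i ∩ S j) ∩ S k) = l ∧ u i ∈ T.Vbd ((S i ∩ S j) ∩ S k) := by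
    intro i j k hij hik hjk
    obtain ⟨h1, -, h3, -⟩ := lat (S i) (S j) (hS i).1 (hS i).2.1 (hS i).2.2.1
      (hS j).1 (hS j).2.1 (hS j).2.2.1
    have hu1 := h3 (u i) (hS i).2.2.2.1 (hC i j hij).2
    obtain ⟨g1, -, g3, -⟩ := lat (S i ∩ S j) (S k) (subset_inter (hS i).1 (hS j).1)
      (inter_subset_left.trans (hS i).2.1) h1 (hS k).1 (hS k).2.1 (hS k).2.2.1
    exact ⟨g1, g3 (u i) hu1 (hC i k hik).2⟩
  have hU : ∀ i j k : Fin 3, i ≠ j → i ≠ k → j ≠ k →
      T.len ((D i ∪ D j) ∪ D k) = l ∧ u i ∈ T.Vbd ((D i ∪ D j) ∪ D k) := by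
    intro i j k hij hik hjk
    obtain ⟨-, h1, -, h3⟩ := lat (D i) (D j) (hD i).1 (hD i).2.1 (hD i).2.2.1
      (hD j).1 (hD j).2.1 (hD j).2.2.1
    have hu1 := h3 (u i) (hD i).2.2.2.1 (hC i j hij).1
    obtain ⟨-, g1, -, g3⟩ := lat (D i ∪ D j) (D k) ((hD i).1.trans subset_union_left)
      (union_subset (hD i).2.1 (hD j).2.1) h1 (hD k).1 (hD k).2.1 (hD k).2.2.1
    exact ⟨g1, g3 (u i) hu1 (hC i k hik).1⟩
  set S' := (S 0 ∩ S 1) ∩ S 2 with hS'
  set P' := (D 0 ∪ D 1) ∪ D 2 with hP'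
  have hSlen : T.len S' = l := (hI 0 1 2 (by decide) (by decide) (by decide)).1
  have hPlen : T.len P' = l := (hU 0 1 2 (by decide) (by decide) (by decide)).1
  have huS : ∀ i, u i ∈ T.Vbd S' := by
    intro i
    fin_cases i
    · exact (hI 0 1 2 (by decide) (by decide) (by decide)).2
    · have := (hI 1 0 2 (by decide) (by decide) (by decide)).2
      rwa [inter_comm (S 1) (S 0)] at this
    · have := (hI 2 0 1 (by decide) (by decide) (by decide)).2
      have h2 : (S 2 ∩ S 0) ∩ S 1 = S' := by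
        rw [hS']
        ext f
        simp only [mem_inter]
        tauto
      rwa [h2] at this
  have huP : ∀ i, u i ∈ T.Vbd P' := by
    intro i
    fin_cases i
    · exact (hU 0 1 2 (by decide) (by decide) (by decide)).2
    · have := (hU 1 0 2 (by decide) (by decide) (by decide)).2
      rwa [union_comm (D 1) (D 0)] at this
    · have := (hU 2 0 1 (by decide) (by decide) (by decide)).2
      have h2 : (D 2 ∪ D 0) ∪ D 1 = P' := by
        rw [hP']
        ext f
        simp only [mem_union]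
        tauto
      rwa [h2] at this
  have hXS : Xa ⊆ S' := subset_inter (subset_inter (hS 0).1 (hS 1).1) (hS 2).1
  have hST : S' ⊆ T₁ := inter_subset_left.trans (inter_subset_left.trans (hS 0).2.1)
  have hXP : Xa ⊆ P' := (hD 0).1.trans (subset_union_left.trans subset_union_left)
  have hPT : P' ⊆ T₁ := union_subset (union_subset (hD 0).2.1 (hD 1).2.1) (hD 2).2.1
  obtain ⟨h1, -, h3, -⟩ := lat P' S' hXP hPT hPlen hXS hST hSlen
  have huPS : ∀ i, u i ∈ T.Vbd (P' ∩ S') := by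
    intro i
    refine h3 (u i) (huP i) fun hcon => ?_
    have := (tri2 S'ᶜ (u i) hcon).1
    rw [tri3] at this
    exact this (huS i)
  have hBS : ∀ i, (T.Vbd (S i)).card ≤ l := fun i => (hbd (S i)).trans (hS i).2.2.1.le
  have hBD : ∀ i, (T.Vbd (D i)).card ≤ l := fun i => (hbd (D i)).trans (hD i).2.2.1.le
  refine ⟨P' ∩ S', S', ⟨subset_inter hXP hXS, inter_subset_right, hST, h1, hSlen,
    ⟨huL 0, huPS 0, huS 0⟩, ⟨huL 1, huPS 1, huS 1⟩, ⟨huL 2, huPS 2, huS 2⟩,
    hne 0 1 (by decide), hne 1 2 (by decide), hne 0 2 (by decide), ?_, ?_⟩⟩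
  · refine card_cover (L := L) (W := T.Vin (T₁ \ S')) (fun i => L ∩ T.Vin (T₁ \ S i))
      (fun i => T.Vbd (S i)) lam l (fun i => (hS i).2.2.2.2) hBS ?_
    intro v hv
    rw [mem_inter] at hv
    obtain ⟨hvL, hv⟩ := hv
    have hv' : ∀ f, v ∈ T.tri f → f ∈ T₁ \ S' := by simpa [Tri.Vin] using hv
    by_contra hcon
    push Not at hcon
    have hall : ∀ i, v ∈ T.Vin (S i) := by
      intro i
      rcases tri (S i) v with h | h | h
      · exact h
      · exact absurd h (hcon i).2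
      · exfalso
        apply (hcon i).1
        rw [mem_inter]
        refine ⟨hvL, ?_⟩
        have h' : ∀ f, v ∈ T.tri f → f ∈ (S i)ᶜ := by simpa [Tri.Vin] using h
        simp only [Tri.Vin, mem_filter, mem_univ, true_and]
        intro f hf
        rw [mem_sdiff]
        exact ⟨(mem_sdiff.1 (hv' f hf)).1, mem_compl.1 (h' f hf)⟩
    obtain ⟨f, hf⟩ := hT.face v
    have hfS : ∀ i, f ∈ S i := by
      intro i
      have h' : ∀ f, v ∈ T.tri f → f ∈ S i := by simpa [Tri.Vin] using hall i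
      exact h' f hf
    exact (mem_sdiff.1 (hv' f hf)).2
      (mem_inter.2 ⟨mem_inter.2 ⟨hfS 0, hfS 1⟩, hfS 2⟩)
  · refine card_cover (L := L) (W := T.Vin ((P' ∩ S') \ Xa)) (fun i => L ∩ T.Vin (D i \ Xa))
      (fun i => T.Vbd (D i)) lam l (fun i => (hD i).2.2.2.2) hBD ?_
    intro v hv
    rw [mem_inter] at hv
    obtain ⟨hvL, hv⟩ := hv
    have hv' : ∀ f, v ∈ T.tri f → f ∈ (P' ∩ S') \ Xa := by simpa [Tri.Vin] using hv
    by_contra hcon
    push Not at hcon
    have hall : ∀ i, v ∈ T.Vin (D i)ᶜ := by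
      intro i
      rcases tri (D i) v with h | h | h
      · exfalso
        apply (hcon i).1
        rw [mem_inter]
        refine ⟨hvL, ?_⟩
        have h' : ∀ f, v ∈ T.tri f → f ∈ D i := by simpa [Tri.Vin] using h
        simp only [Tri.Vin, mem_filter, mem_univ, true_and]
        intro f hf
        rw [mem_sdiff]
        exact ⟨h' f hf, (mem_sdiff.1 (hv' f hf)).2⟩
      · exact absurd h (hcon i).2
      · exact h
    obtain ⟨f, hf⟩ := hT.face v
    have hfD : ∀ i, f ∉ D i := by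
      intro i
      have h' : ∀ f, v ∈ T.tri f → f ∈ (D i)ᶜ := by simpa [Tri.Vin] using hall i
      exact mem_compl.1 (h' f hf)
    have hfP : f ∈ P' := (mem_inter.1 (mem_sdiff.1 (hv' f hf)).1).1
    rw [hP', mem_union, mem_union] at hfP
    rcases hfP with (h | h) | h
    · exact hfD 0 h
    · exact hfD 1 h
    · exact hfD 2 h

end Pool.Agent.Helper10.FF
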